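import Pool.Agent.Helper41.LF.GoalsA

/-!
# Project LF, packet POL: the minors are polynomials
-/

set_option autoImplicit false

namespace Pool.Agent.Helper3.LF

open Pool.Agent.Helper41.LF Polynomial

theorem thm_POL : S_POL := by
  intro d j a K β
  let P : (Fin j → Fin (d + 1)) → Matrix (Fin j) (Fin j) (Polynomial ℝ) := fun r =>
    Matrix.of fun k l => if r l = 0 then C (a * (β k 0 : ℝ)) else
      C K * (C (β k 0 : ℝ) * X ^ ((r l : Fin (d + 1)) : ℕ) - C (β k (r l) : ℝ))
  have hdeg : ∀ r k l, (P r k l).natDegree ≤ d := by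
    intro r k l
    simp only [P, Matrix.of_apply]
    split_ifs with h
    · rw [natDegree_C]; exact Nat.zero_le _
    · refine (natDegree_C_mul_le _ _).trans ?_
      refine (natDegree_sub_le _ _).trans ?_
      rw [natDegree_C, max_eq_left (Nat.zero_le _)]
      exact (natDegree_C_mul_X_pow_le _ _).trans (Nat.lt_succ_iff.1 (r l).2)
  refine ⟨fun r => (P r).det, fun r => ?_, fun x r => ?_⟩
  · beta_reduce
    rw [Matrix.det_apply]
    refine natDegree_sum_le_of_forall_le _ _ fun σ _ => ?_
    refine (natDegree_smul_le _ _).trans ?_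
    refine (natDegree_prod_le _ _).trans ?_
    calc ∑ i : Fin j, (P r (σ i) i).natDegree ≤ ∑ _i : Fin j, d := Finset.sum_le_sum fun i _ => hdeg r _ _
      _ = d * j := by simp [mul_comm]
  · have h1 := RingHom.map_det (evalRingHom x) (P r)
    have h2 : (evalRingHom x) (P r).det = (P r).det.eval x := rfl
    rw [← h2, h1]
    unfold mnr
    congr 1
    ext k l
    simp only [RingHom.mapMatrix_apply, Matrix.map_apply, P, Matrix.of_apply, hx]
    split_ifs with h
    · simp
    · simp

end Pool.Agent.Helper3.LF
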